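import Mathlib
import Pool.Agent.H514R5.Main

set_option autoImplicit false

/-!
# Polynomial recurrence along progressions for minimal unipotent affine maps of tori

A generic point `x` of a minimal unipotent affine map `T x = U x + α` of the torus has a
translation vector `(U - 1) x + α` on which no nonzero character vanishes. By Weyl's theorem on
polynomials, the multiples of this vector by all the polynomials `y ^ l / s!`, `y = k n + j`, are
simultaneously close to zero for some `n`; hence `T ^ (p i (k n + j)) x` is close to `x` for all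
`i`, and the same holds at the dense set of the points `T ^ m x`.
-/

open Polynomial

namespace Pool.Agent.Results.MP_35c333_an.UnipotentTori

/-- Let `T x = U x + α` be a minimal affine map of the torus `(ℝ/ℤ)^r` with `U` a unipotent integer
matrix. For integer polynomials `p i` vanishing at `0`, `k ≥ 1`, `j`, and a nonempty open set `V`
there are `n ≥ 1` and `x ∈ V` with `T ^ (p i (k n + j)) x ∈ V` for all `i`. -/
theorem result {r : ℕ} (U : Matrix (Fin r) (Fin r) ℤ) (hU : IsNilpotent (U - 1))
    (α : Fin r → UnitAddCircle) (T : Equiv.Perm (Fin r → UnitAddCircle))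
    (hT : ∀ x i, T x i = ∑ j, U i j • x j + α i)
    (hmin : ∀ x, Dense (Set.range fun n : ℤ => (T ^ n) x))
    {d : ℕ} (p : Fin d → ℤ[X]) (hp : ∀ i, (p i).eval 0 = 0) (k : ℕ) (hk : 0 < k) (j : ℕ)
    (V : Set (Fin r → UnitAddCircle)) (hV : IsOpen V) (hne : V.Nonempty) :
    ∃ n : ℕ, 0 < n ∧ ∃ x ∈ V, ∀ i, (T ^ ((p i).eval ((k : ℤ) * (n : ℤ) + (j : ℤ)))) x ∈ V :=
  Pool.Agent.H514R5.main U hU α T hT hmin p hp k hk j V hV hne

end Pool.Agent.Results.MP_35c333_an.UnipotentTori
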